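import Pool.Agent.U863.NS.Field

/-! # MP_2429c0_al: a quaternion algebra containing almost all quadratic extensions

Theorem.  Let `F` be a field of characteristic `≠ 2` with finitely many square classes, and let
`D = (u,v)` be a quaternion division algebra over `F`.  Suppose that all elements of `F*`, up to
five square classes, are squares in `D`; that is, `D` contains all but at most five of the
quadratic extensions of `F`.  Then the quaternionic structure of `F` is of elementary type.

Outline.  Let `B` be the set of the square classes of the `a` for which `D` is not isomorphic to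
any `(a,b)`.  Linkage of quaternion algebras and a double count of the pairs of classes `(a,x)`, `x`
in the norm group `N(c)` of `F(√c)`, with `(a,x)` isomorphic to `D`, give for all `c`

  `∑_{a ∈ B or ac ∈ B} |N(a) ∩ N(c)| = ∑_{x ∈ N(c) ∩ B} |N(x)|`

(orders modulo squares).  So the index of `N(c)` is at most `2 |B|`, here at most eight; used for `c`
and `-c` together the identity shows that the elements with norm groups of index at most four
generate `F*` (`U863/NS/Count.lean`), and a starting result applies. -/

set_option autoImplicit false

namespace Pool.Agent.Results.MP_2429c0_al.AlmostAllQuadraticSubfields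

open scoped Quaternion
open Pool.Agent.H315R3.ETC Pool.Agent.TH188.ET

theorem result {F : Type*} [Field F] (h2 : (2 : F) ≠ 0) (hfin : FinSq F) (u v : Fˣ)
    -- `D = (u,v)` is a division algebra
    (hD : ∀ x y : ℍ[F,(u : F),0,(v : F)], x * y = 0 → x = 0 ∨ y = 0)
    -- up to five square classes, all elements of `F*` are squares in `D`
    (l : Fin 5 → Fˣ)
    (hl : ∀ a : Fˣ, (∃ x : ℍ[F,(u : F),0,(v : F)], x * x = algebraMap F _ (a : F)) ∨
      ∃ (i : Fin 5) (y : Fˣ), a = l i * y ^ 2) :
    ∃ S : QData, Elem S ∧ IsStructureOf F S :=
  Pool.Agent.U863.NS.field_few h2 hfin hD l hl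

end Pool.Agent.Results.MP_2429c0_al.AlmostAllQuadraticSubfields
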