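import Pool.Agent.U111.NGC.Sat
import Pool.Agent.U111.NGC.Prod

/-! # MP_2429c0_al: norm group criteria for elementary type

Let `F` be a field of characteristic `≠ 2` with finitely many square classes, `N(a)` the group of the
nonzero values of `x² - a y²`, and `C` the core of `F`: the smallest subgroup of `F*` which contains
all `a` with `|F* : N(a)| ≤ 2` and all `a` with `N(a) C = F*`.

* `F` is of elementary type if and only if every subgroup `H ≠ F*` has an `a ∉ H` with
  `N(ah) ⊆ N(a) H` for all `h ∈ H`.
* It is enough to look at the critical subgroups `H`: these are closed (they contain all `a` with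
  `|F* : N(a)| ≤ 2` and all `a` with `N(a) H = F*`), have index at least eight, and are not generated
  by `C` and one element.  For them one of two weaker conditions suffices.
* `F` is of elementary type if and only if a chain of good elements leads to a subgroup `L` with
  `|F* : L C| ≤ 4`.
* If `|F* : C| ≤ 32` and `F` is not of elementary type, there is a closed subgroup `H` of index eight
  such that, for all `a` outside `H ∪ -H`, all three subgroups `M` of index two which contain `H` and
  `-a` are of the form `N(ah) H`, `h ∈ H`.
* The structure of `F` is a direct product of structures with at most two quaternions if and only if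
  products of norm groups are norm groups, if and only if `F*` is generated by the `a` with
  `|F* : N(a)| ≤ 2`, if and only if `F` is of elementary type and always `N(a) N(b) N(ab) = F*`.

Outline. Symbols on a closed subgroup `H` are extended to larger subgroups. If `H` is generated by
the core and one element they are functions of the quaternion algebras. Otherwise the condition on
`H` gives the extension; if `H` does not contain the chain subgroup `L`, it follows from the goodness
of the first element of the chain outside `H`, and if it does, `H` has index at most four. If `H` has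
index eight and one of the three subgroups `M` is missing, then `N(ah) ⊆ N(a₁) H ∪ N(a₂) H` for all
`h ∈ H` and suitable `a₁, a₂ ∈ aH`. -/

set_option autoImplicit false

namespace Pool.Agent.Results.MP_2429c0_al.NormGroupCriteria

open Pool.Agent.H315R3.ETC Pool.Agent.TH188.ET Pool.Agent.TH673.VG Pool.Agent.U111.NGC

/-- the quaternionic structure (equivalently the Witt ring) of `F` is of elementary type -/
def ElementaryType (F : Type*) [Field F] : Prop := ∃ S : QData, Elem S ∧ IsStructureOf F S

/-- the quaternionic structure of `F` is a direct product of structures with at most two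
quaternions -/
def ProductType (F : Type*) [Field F] : Prop := ∃ S : QData, ProdTwo S ∧ IsStructureOf F S

theorem result {F : Type*} [Field F] (h2 : (2 : F) ≠ 0) (hfin : FinSq F) :
    -- all subgroups
    (ElementaryType F ↔ ∀ H : Subgroup Fˣ, H ≠ ⊤ → NormStep H) ∧
    -- the critical subgroups
    (ElementaryType F ↔ ∀ H : Subgroup Fˣ, Critical H → NormStepTwo H ∨ NormPairs H) ∧
    -- chains
    (ElementaryType F ↔ NormChain F ⊤) ∧
    (ElementaryType F ↔ ∃ L : Subgroup Fˣ, NormChain F L ∧ (L ⊔ fieldCore F).index ≤ 4) ∧
    -- cores of index at most 32
    ((fieldCore F).index ≤ 32 → ¬ ElementaryType F →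
      ∃ H : Subgroup Fˣ, NormClosed H ∧ H.index = 8 ∧ ¬ NormStepTwo H ∧ ¬ NormPairs H ∧
        ∀ a : Fˣ, a ∉ H → -a ∉ H → ∀ M : Subgroup Fˣ, M.index = 2 → H ≤ M → -a ∈ M →
          ∃ g ∈ H, normGroup (a * g) ⊔ H = M) ∧
    -- products of norm groups
    (ProductType F ↔ ∀ a b : Fˣ, ∃ c : Fˣ, normGroup c = normGroup a ⊔ normGroup b) ∧
    (ProductType F ↔ ElementaryType F ∧
      ∀ a b : Fˣ, normGroup a ⊔ normGroup b ⊔ normGroup (a * b) = ⊤) ∧
    (ProductType F ↔ Subgroup.closure {a : Fˣ | (normGroup a).index ≤ 2} = ⊤) := by
  obtain ⟨h1, h3, h4, h5⟩ := criteria h2 hfin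
  obtain ⟨p1, p2, p3⟩ := products h2 hfin
  exact ⟨h1, h3, h4, h5, saturated h2 hfin, p1, p2, p3⟩

end Pool.Agent.Results.MP_2429c0_al.NormGroupCriteria
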