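import Mathlib
import Pool.Agent.U499.ETV.Fld
import Pool.Agent.Y620.ET.Res

set_option autoImplicit false

/-! # MP_2429c0_al: fields with norm groups of order at most four modulo the Kaplansky radical

Let `F` be a field of characteristic `≠ 2` with finitely many square classes, let `N(a)` be the
group of the nonzero values of `x² - a y²` and let `R` be the intersection of all `N(a)` (the
Kaplansky radical). If `|N(a)/R| ≤ 4` for all `a` outside `R` and `-R`, then the quaternionic
structure of `F` is of elementary type. -/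

namespace Pool.Agent.Results.MP_2429c0_al.NormGroupsOverRadical

open Pool.Agent.H315R3.ETC Pool.Agent.TH188.ET

universe u

/-- the group of squares of `F*` -/
def squares (F : Type u) [Field F] : Subgroup Fˣ := (powMonoidHom 2 : Fˣ →* Fˣ).range

/-- the group `N(a)` of the nonzero values of `x² - a y²` -/
def normGroup {F : Type u} [Field F] (a : Fˣ) : Subgroup Fˣ where
  carrier := {c | ∃ x y : F, (c : F) = x ^ 2 - a * y ^ 2}
  one_mem' := NormFrom.one a
  mul_mem' := NormFrom.mul
  inv_mem' := NormFrom.inv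

/-- the Kaplansky radical `R`: the intersection of all norm groups -/
def radical (F : Type u) [Field F] : Subgroup Fˣ := ⨅ a : Fˣ, normGroup a

/-- the characteristic is not two, `F*/F*²` is finite, and `N(a)/R` has at most four elements for
all `a` outside `R` and `-R` -/
def SmallNorms (F : Type u) [Field F] : Prop :=
  (2 : F) ≠ 0 ∧ (squares F).index ≠ 0 ∧
    ∀ a : Fˣ, a ∉ radical F → -a ∉ radical F → (radical F).relIndex (normGroup a) ≤ 4

/-- the characteristic is not two, `F*/F*²` is finite, and `N(a)/F*²` has at most four elements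
for all `a` which are not squares -/
def SmallNormsSq (F : Type) [Field F] : Prop :=
  (2 : F) ≠ 0 ∧ (squares F).index ≠ 0 ∧
    ∀ a : Fˣ, a ∉ squares F → (squares F).relIndex (normGroup a) ≤ 4

theorem result :
    -- norm groups of order at most four modulo the radical
    (∀ (F : Type u) [Field F], SmallNorms F → ∃ S : QData, Elem S ∧ IsStructureOf F S) ∧
    -- the norm groups: `N(a)` is contained in `R ∪ -R ∪ aR ∪ -aR` for all `a` outside a group `A`
    -- with `|A/R| ≤ 8`
    (∀ (F : Type u) [Field F], SmallNorms F →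
      ∃ A : Subgroup Fˣ, radical F ≤ A ∧ -1 ∈ A ∧ (radical F).relIndex A ≤ 8 ∧
        ∀ a : Fˣ, a ∉ A → ∀ x ∈ normGroup a, ∃ r ∈ radical F,
          x = r ∨ x = -r ∨ x = a * r ∨ x = -(a * r)) ∧
    -- if `|N(a)/F*²| ≤ 4` for all nonsquares `a`, the structure of the field is an iterated group
    -- extension of a structure with at most eight elements
    (∀ (F : Type) [Field F], SmallNormsSq F →
      ∃ (T : QData) (k : ℕ), IsQuat T ∧ Finite T.G ∧ Nat.card T.G ≤ 8 ∧
        IsStructureOf F (ext^[k] T)) ∧
    -- and if moreover there are more than sixteen square classes, there is a valuation ring for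
    -- which `1 + m` consists of squares and whose residue field has at most sixteen square classes
    (∀ (F : Type) [Field F], SmallNormsSq F → 16 < (squares F).index →
      ∃ O : ValuationSubring F,
        (∀ x : F, x ∈ O → x⁻¹ ∉ O → IsSquare (1 + x)) ∧
        SmallNormsSq (IsLocalRing.ResidueField O) ∧
        (squares (IsLocalRing.ResidueField O)).index ≤ 16 ∧
        ∃ (T : QData) (k : ℕ), 1 ≤ k ∧
          2 ^ k * (squares (IsLocalRing.ResidueField O)).index = (squares F).index ∧
          IsStructureOf (IsLocalRing.ResidueField O) T ∧ IsStructureOf F (ext^[k] T)) := by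
  have fin : ∀ (F : Type u) [Field F], (squares F).index ≠ 0 → FinSq F := by
    intro F _ h
    have : Finite (Fˣ ⧸ squares F) := by
      by_contra hc
      rw [not_finite_iff_infinite] at hc
      exact h Nat.card_eq_zero_of_infinite
    exact this
  refine ⟨?_, ?_, ?_, ?_⟩
  · intro F _ hF
    obtain ⟨h2, hfin, hsm⟩ := hF
    obtain ⟨S, hS, hSf, hSq⟩ := exists_structure h2 (fin F hfin)
    refine ⟨S, ?_, hS⟩
    obtain ⟨φ, hs, hk, hn, h0, hq⟩ := hS
    have hz : ∀ a b : Fˣ, S.q (φ a) (φ b) = S.zero ↔ NormFrom a b := by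
      intro a b
      have h := hq a b 1 1
      rw [map_one, h0] at h
      rw [h]
      exact qiso_one h2 a b
    exact Pool.Agent.U499.ETV.elem_of_rfour hSq
      (Pool.Agent.U499.ETV.rfour_of_field hs hk hz hSq hn hsm)
  · intro F _ hF
    obtain ⟨h2, hfin, hsm⟩ := hF
    obtain ⟨S, hS, hSf, hSq⟩ := exists_structure h2 (fin F hfin)
    obtain ⟨φ, hs, hk, hn, h0, hq⟩ := hS
    have hz : ∀ a b : Fˣ, S.q (φ a) (φ b) = S.zero ↔ NormFrom a b := by
      intro a b
      have h := hq a b 1 1
      rw [map_one, h0] at h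
      rw [h]
      exact qiso_one h2 a b
    exact Pool.Agent.U499.ETV.shape_of_field hs hk hz hSq hn
      (Pool.Agent.U499.ETV.rfour_of_field hs hk hz hSq hn hsm)
  · intro F _ hF
    obtain ⟨h2, hfin, hsmall⟩ := hF
    obtain ⟨S, hS, hSf, hSq⟩ := exists_structure h2
      (Pool.Agent.Y920.ETC.finSq_of_index hfin)
    have hS' := hS
    obtain ⟨φ, hs, hk, hn, h0, hq⟩ := hS
    have hvs : ∀ g : S.G, g ≠ 1 → Pool.Agent.Y920.ETC.vs S g ≤ 4 := by
      intro g hg
      obtain ⟨a, rfl⟩ := hs g
      rw [Pool.Agent.Y920.ETC.vs_eq hs hk h0 hq h2]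
      refine hsmall a fun ha => hg ?_
      rw [hk]
      exact Pool.Agent.Y920.ETC.mem_sqG.1 ha
    obtain ⟨T, k, hT, hTf, hTc, -, hTi⟩ :=
      Pool.Agent.U499.ETV.iter_four _ S hSq hSf le_rfl hvs
    refine ⟨T, k, hT, hTf, hTc, Pool.Agent.Y920.ETC.structure_iso hS'
      (Pool.Agent.Y920.ETC.iso_symm hTi) ?_⟩
    have : ∀ (k : ℕ) (T : QData), T.q 1 1 = T.zero → (ext^[k] T).q 1 1 = (ext^[k] T).zero := by
      intro k T hT
      induction k with
      | zero => exact hT
      | succ k ih =>
        rw [Function.iterate_succ_apply']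
        show (((ext^[k] T).q 1 1, pw (pw (ext^[k] T).neg 1) 1 * pw 1 1 * pw 1 1) :
          (ext^[k] T).Q × (ext^[k] T).G) = ((ext^[k] T).zero, 1)
        rw [ih]
        simp [pw]
    exact this k T (q_one hT 1)
  · intro F _ hF hlarge
    obtain ⟨h2, hfin, hsmall⟩ := hF
    obtain ⟨O, hO, hOc, k, T, hk1, hk, hT, hTF⟩ := Pool.Agent.U499.ETV.reduce4
      Pool.Agent.Y620.ET.t_RES h2 hfin hsmall hlarge
    exact ⟨O, hO.sqr.2.2, ⟨hO.two, hO.fin, hO.small⟩, hOc, T, k, hk1, hk, hT, hTF⟩

end Pool.Agent.Results.MP_2429c0_al.NormGroupsOverRadical
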