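import Pool.Agent.U863.CG.Field

/-! # MP_2429c0_al: elementary type and bases of `F*/F*²` with independent symbols

Theorem.  Let `F` be a field of characteristic `≠ 2` with finitely many square classes in which `-1`
is a square.  The quaternionic structure of `F` is of elementary type if and only if `F*/F*²` has a
basis `a_1, ..., a_n` such that the different nonzero ones among the symbols `{a_i, a_j}` are
linearly independent in `K_2(F)/2`, and `{a_i, a_j} = {a_i, a_k} ≠ 0` only for `j = k`.

Outline.  Join `i` and `j` by an edge of the colour `{a_i, a_j}` if this symbol is not zero.  The
linkage of quaternion algebras implies that this graph has no induced path with three edges and no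
induced cycle of length four, and restricts repeated colours (`U863/CG/Comb.lean`), so a vertex of
maximal degree is joined to all vertices of its component.  This splits the structure of `F` as a
group extension, a direct product, or a structure with at most one nonsplit quaternion algebra.
Conversely the structures of elementary type with `-1 = 1` are structures of edge-coloured graphs,
and the coefficients of the colours are symbols on `F`, which gives the independence. -/

set_option autoImplicit false

namespace Pool.Agent.Results.MP_2429c0_al.SymbolBases

open Pool.Agent.H315R3.ETC Pool.Agent.TH188.ET Pool.Agent.U863.CG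

theorem result {F : Type*} [Field F] (h2 : (2 : F) ≠ 0) (hfin : FinSq F)
    (hi : ∃ x : F, x ^ 2 = -1) :
    (∃ S : QData, Elem S ∧ IsStructureOf F S) ↔
      ∃ (n : ℕ) (a : Fin n → Fˣ),
        SquareClassBasis a ∧ IndependentSymbols a ∧ DistinctSymbols a :=
  ⟨exists_symbolBasis h2 hi, fun ⟨_, _, hb, hI, hD⟩ => elem_of_symbolBasis h2 hfin hi hb hI hD⟩

end Pool.Agent.Results.MP_2429c0_al.SymbolBases
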